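import Pool.Agent.R537.VC.Defs

/-!
# Piece VC-MP: the map `msen` is computable in polynomial time
-/

set_option autoImplicit false

namespace Pool.Agent.NPC.R537VC

open Pool.Agent.NPC Pool.Agent.NPC.ER Pool.Agent.NPC.H670R2

namespace MPx

/-- the token map of the substitution `mvar` -/
def tokM (n j : ℕ) (t : Tok) : Tok := if t.code.1 = 0 then Tok.var (mvar n j t.code.2) else t

theorem toks_sbT (n j : ℕ) : ∀ t : Tm, (sbT (mvar n j) t).toks = t.toks.map (tokM n j)
  | .var i => by simp [sbT, Tm.toks, tokM, Tok.code]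
  | .zero => by simp [sbT, Tm.toks, tokM, Tok.code]
  | .one => by simp [sbT, Tm.toks, tokM, Tok.code]
  | .add s t => by simp [sbT, Tm.toks, tokM, Tok.code, toks_sbT n j s, toks_sbT n j t]
  | .neg t => by simp [sbT, Tm.toks, tokM, Tok.code, toks_sbT n j t]
  | .mul s t => by simp [sbT, Tm.toks, tokM, Tok.code, toks_sbT n j s, toks_sbT n j t]

theorem toks_sbF (n j : ℕ) : ∀ φ : Fm, (sbF (mvar n j) φ).toks = φ.toks.map (tokM n j)
  | .eq s t => by simp [sbF, Fm.toks, tokM, Tok.code, toks_sbT n j s, toks_sbT n j t]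
  | .lt s t => by simp [sbF, Fm.toks, tokM, Tok.code, toks_sbT n j s, toks_sbT n j t]
  | .le s t => by simp [sbF, Fm.toks, tokM, Tok.code, toks_sbT n j s, toks_sbT n j t]
  | .not φ => by simp [sbF, Fm.toks, tokM, Tok.code, toks_sbF n j φ]
  | .and φ ψ => by simp [sbF, Fm.toks, tokM, Tok.code, toks_sbF n j φ, toks_sbF n j ψ]
  | .or φ ψ => by simp [sbF, Fm.toks, tokM, Tok.code, toks_sbF n j φ, toks_sbF n j ψ]

theorem toks_andL (l : List Fm) : (andL l).toks =
    l.flatMap Fm.toks ++ (Fm.le Tm.zero Tm.zero).toks ++ List.replicate l.length Tok.and := by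
  induction l with
  | nil => simp [andL]
  | cons a l ih =>
      change a.toks ++ (andL l).toks ++ [Tok.and] = _
      rw [ih]
      simp [List.replicate_succ']

section

variable {α : Type} [TEnc α]

theorem poly_tokM {n j : α → ℕ} {t : α → Tok} (hn : Poly n) (hj : Poly j) (ht : Poly t) :
    Poly (fun a => tokM (n a) (j a) (t a)) := by
  have h0 := poly_tok_code ht
  have hi := Poly.snd h0
  refine Poly.ite (Poly.decide_eq (Poly.fst h0) (Poly.const 0)) (poly_tok ?_) ht
  exact Poly.ite (Poly.decide_lt hi hn)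
    (Poly.mul (Poly.const 3) (Poly.add (Poly.mul hj hn) hi))
    (Poly.add (Poly.mul (Poly.const 3) hi) (Poly.const 2))

theorem poly_sbF {n j : α → ℕ} {φ : α → Fm} (hn : Poly n) (hj : Poly j) (hφ : Poly φ) :
    Poly (fun a => sbF (mvar (n a) (j a)) (φ a)) := by
  refine fm_of_toks (Poly.congr (f := fun a => (φ a).toks.map (tokM (n a) (j a))) ?_
    fun a => (toks_sbF _ _ _).symm)
  exact Poly.map (F := fun a t => tokM (n a) (j a) t) (fm_toks hφ)
    (poly_tokM (hn.comp (Poly.fst Poly.id)) (hj.comp (Poly.fst Poly.id)) (Poly.snd Poly.id))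

theorem poly_andL {l : α → List Fm} (hl : Poly l) : Poly (fun a => andL (l a)) := by
  refine fm_of_toks (Poly.congr (f := fun a => (l a).flatMap Fm.toks ++
    (Fm.le Tm.zero Tm.zero).toks ++ List.replicate (l a).length Tok.and) ?_
    fun a => (toks_andL _).symm)
  refine Poly.append (Poly.append (Poly.flatMap (F := fun _ φ => Fm.toks φ) hl
    (fm_toks (Poly.snd Poly.id))) (Poly.const _)) (poly_replicate hl _)

theorem poly_is1 {i : α → ℕ} (hi : Poly i) : Poly (fun a => is1 (i a)) :=
  poly_eq (poly_tvar hi) (Poly.const _)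

end

end MPx

open MPx in
/-- piece VC-MP -/
theorem t_MP : S_MP := by
  have hI : Poly (fun I : VInst => I) := Poly.id
  have hn : UPoly (fun I : VInst => I.2.1.length) := UPoly.length (Poly.fst (Poly.snd hI))
  have hk : UPoly (fun I : VInst => I.2.2.length) := UPoly.length (Poly.snd (Poly.snd hI))
  have h3 : Poly (fun q : VInst × ℕ => 3 * q.2) := Poly.mul (Poly.const 3) (Poly.snd Poly.id)
  have h31 : Poly (fun q : VInst × ℕ => 3 * q.2 + 1) := Poly.add h3 (Poly.const 1)
  have hs : Poly (fun q : VInst × ℕ => sbF (mvar q.1.2.1.length q.2) q.1.1) :=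
    poly_sbF (n := fun q : VInst × ℕ => q.1.2.1.length) (j := fun q : VInst × ℕ => q.2)
      (φ := fun q : VInst × ℕ => q.1.1) (hn.toPoly.comp (Poly.fst Poly.id)) (Poly.snd Poly.id)
      (Poly.fst (Poly.fst Poly.id))
  have h1 : Poly (fun I : VInst =>
      if I.2.2 = [] then Fm.lt Tm.zero Tm.zero else Fm.le Tm.zero Tm.zero) := by
    refine Poly.congr (f := fun I : VInst =>
      if I.2.2.length = 0 then Fm.lt Tm.zero Tm.zero else Fm.le Tm.zero Tm.zero) ?_ ?_
    · exact Poly.ite (Poly.decide_eq hk.toPoly (Poly.const 0)) (Poly.const _) (Poly.const _)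
    · intro I
      by_cases h : I.2.2 = [] <;> simp [h]
  have h2 : Poly (fun I : VInst => (List.range I.2.2.length).map fun j =>
        Fm.or (Fm.and (is1 (3 * j + 1)) (sbF (mvar I.2.1.length j) I.1))
          (Fm.and (Fm.not (is1 (3 * j + 1))) (Fm.not (sbF (mvar I.2.1.length j) I.1)))) := by
    refine Poly.map (F := fun (I : VInst) j =>
      Fm.or (Fm.and (is1 (3 * j + 1)) (sbF (mvar I.2.1.length j) I.1))
          (Fm.and (Fm.not (is1 (3 * j + 1))) (Fm.not (sbF (mvar I.2.1.length j) I.1))))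
      hk.range ?_
    exact poly_or (poly_and (poly_is1 h31) hs) (poly_and (poly_not (poly_is1 h31)) (poly_not hs))
  exact Poly.pair (Poly.map (F := fun _ t => 3 * t) (hk.mul hn).range h3)
    (Poly.pair (Poly.map (F := fun _ j => 3 * j + 1) hk.range h31)
      (poly_and h1 (poly_andL h2)))

end Pool.Agent.NPC.R537VC
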